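import Pool.Agent.Run7.h370.QC.Q6

/-!
# The virial identity
(piece Q7 of the interface `Run7.h630.QC`)
-/

set_option autoImplicit false
set_option linter.unusedSectionVars false
set_option linter.unusedVariables false

open Matrix
open scoped Matrix.Norms.Frobenius ComplexConjugate

namespace Run7.h182.QC

open Run7.h4.YM Run7.h630.MQ Run7.h630.QC Run7.h370.MQ Run7.h370.QC

noncomputable section

variable {N n L l : ℕ}

/-- the coefficients of the vector field -/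
def cv (k : ℕ) (q : ZMod n × ZMod L → ZMod N) (U : Link n L l → SU N) [NeZero N] (α : Col N)
    (j : Fin 4) (x : Site n L l) : ℂ :=
  if α = (0, 0) then 0 else (-(1 / N) : ℂ) * pot k α (ps k q α U) j x

lemma cv_of [NeZero N] (k : ℕ) (q : ZMod n × ZMod L → ZMod N) (U : Link n L l → SU N) {α : Col N}
    (h : α ≠ (0, 0)) (j : Fin 4) (x : Site n L l) :
    cv k q U α j x = (-(1 / N) : ℂ) * pot k α (ps k q α U) j x := if_neg h

lemma Kf_eq [NeZero N] (k : ℕ) (q : ZMod n × ZMod L → ZMod N) (U : Link n L l → SU N) :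
    Kf k q U = Ka (cv k q U) U := by
  funext e
  unfold Kf Ka
  congr 1
  refine Finset.sum_congr rfl fun α hα => ?_
  rw [cv_of k q U (Finset.ne_of_mem_erase hα)]

lemma ps_anti (k : ℕ) (q : ZMod n × ZMod L → ZMod N) (α : Col N) (U : Link n L l → SU N)
    (i j : Fin 4) (x : Site n L l) : ps k q α U j i x = -ps k q α U i j x := by
  unfold ps
  rcases lt_trichotomy i j with h | h | h
  · rw [if_neg h.not_gt, if_pos h, if_pos h]
  · subst h
    rw [if_neg (lt_irrefl i), if_neg (lt_irrefl i), neg_zero]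
  · rw [if_pos h, if_neg h.not_gt, if_pos h, neg_neg]

lemma ps_lt (k : ℕ) (q : ZMod n × ZMod L → ZMod N) (α : Col N) (U : Link n L l → SU N)
    {i j : Fin 4} (h : i < j) (x : Site n L l) : ps k q α U i j x = conj (ph2 k q α U i j x) := by
  unfold ps
  rw [if_pos h]

lemma ph2_le [NeZero N] [NeZero n] [NeZero L] [NeZero l] (k : ℕ)
    (q : ZMod n × ZMod L → ZMod N) (α : Col N) (U : Link n L l → SU N)
    (i j : Fin 4) (x : Site n L l) : ‖ph2 k q α U i j x‖ ≤ N ^ 2 * ss k q U := by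
  unfold ph2
  have hs := ss_nonneg k q U
  refine (norm_tr_mul_le _ _).trans ?_
  calc (N : ℝ) * (‖(Dr α U x).1‖ * ‖Fc k q U x i j‖) ≤ N * (N * ss k q U) :=
        mul_le_mul_of_nonneg_left (mul_le_mul (norm_SU_le _) (Fc_le k q U x i j) (norm_nonneg _)
          (Nat.cast_nonneg _)) (Nat.cast_nonneg _)
    _ = N ^ 2 * ss k q U := by ring

lemma ps_le [NeZero N] [NeZero n] [NeZero L] [NeZero l] (k : ℕ)
    (q : ZMod n × ZMod L → ZMod N) (α : Col N) (U : Link n L l → SU N)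
    (i j : Fin 4) (x : Site n L l) : ‖ps k q α U i j x‖ ≤ N ^ 2 * ss k q U := by
  have hs := ss_nonneg k q U
  unfold ps
  split_ifs
  · rw [RCLike.norm_conj]
    exact ph2_le k q α U i j x
  · rw [norm_neg, RCLike.norm_conj]
    exact ph2_le k q α U j i x
  · rw [norm_zero]
    positivity

lemma Dr_zero [NeZero N] (U : Link n L l → SU N) (x : Site n L l) :
    Dr ((0, 0) : Col N) U x = 1 := by
  unfold Dr
  simp

lemma nb_mul (k : ℕ) (α : Col N) (j : Fin 4) (c : ℂ) (h : Site n L l → ℂ) (x : Site n L l) :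
    nb k α j (fun y => c * h y) x = c * nb k α j h x := by
  unfold nb
  ring

/-- the main term of the colour `α` -/
lemma T_eq [NeZero N] [NeZero n] [NeZero L] [NeZero l] (k : ℕ)
    (q : ZMod n × ZMod L → ZMod N) (U : Link n L l → SU N) {α : Col N} (hα : α ≠ (0, 0)) :
    ∑ x : Site n L l, ∑ i : Fin 4, ∑ j ∈ Finset.Ioi i,
        ((nb k α i (cv k q U α j) x - nb k α j (cv k q U α i) x) * ph2 k q α U i j x).re +
      1 / N * ∑ x : Site n L l, ∑ i : Fin 4, ∑ j ∈ Finset.Ioi i, ‖ph2 k q α U i j x‖ ^ 2 =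
    -(1 / N * (∑ x : Site n L l, ∑ i : Fin 4, ∑ j ∈ Finset.Ioi i,
      ((nb k α i (pot k α (ps k q α U) j) x - nb k α j (pot k α (ps k q α U) i) x) *
        conj (ps k q α U i j x) - ((‖ps k q α U i j x‖ ^ 2 : ℝ) : ℂ))).re) := by
  simp only [Complex.re_sum, Finset.mul_sum, ← Finset.sum_add_distrib, ← Finset.sum_neg_distrib]
  refine Finset.sum_congr rfl fun x _ => Finset.sum_congr rfl fun i _ =>
    Finset.sum_congr rfl fun j hj => ?_
  rw [Finset.mem_Ioi] at hj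
  have e1 : ∀ j : Fin 4, cv k q U α j =
      fun y => (-(1 / N) : ℂ) * pot k α (ps k q α U) j y := fun j => by
    funext y
    exact cv_of k q U hα j y
  rw [e1 j, e1 i, nb_mul, nb_mul, ps_lt k q α U hj, Complex.conj_conj, RCLike.norm_conj]
  generalize nb k α i (pot k α (ps k q α U) j) x = a
  generalize nb k α j (pot k α (ps k q α U) i) x = b
  generalize ph2 k q α U i j x = c
  have e2 : (-(1 / N) : ℂ) * a - -(1 / N) * b = ((-(1 / N) : ℝ) : ℂ) * (a - b) := by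
    push_cast
    ring
  rw [e2, mul_assoc, Complex.re_ofReal_mul, Complex.sub_re, Complex.ofReal_re]
  ring

theorem t_Q7' (h3 : S_Q3) (h3b : S_Q3b) (h4 : S_Q4) (h5 : S_Q5b) (h6 : S_Q6) : S_Q7 := by
  intro N _
  obtain ⟨C3, p3, hC3, h3⟩ := h3 N
  obtain ⟨C3b, hC3b, h3b⟩ := h3b N
  obtain ⟨C4, p4, hC4, h4⟩ := h4 N
  obtain ⟨C5, p5, hC5, h5⟩ := h5 N
  obtain ⟨C6, p6, hC6, h6⟩ := h6 N
  have hN : (1 : ℝ) ≤ N := by exact_mod_cast Nat.pos_of_neZero N
  have hN0 : (0 : ℝ) < N := by linarith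
  refine ⟨C6 * (C5 * N ^ 2) + N ^ 2 * (C5 * (C4 * N ^ 2)) + (C3 + 2 * N * C3b ^ 2),
    p3 + p4 + p5 + p6, by positivity, ?_⟩
  intro n L l k _ _ _ hk q U
  have hs := ss_nonneg k q U
  obtain ⟨hV1, hlV⟩ := vol_ge (n := n) (L := L) (l := l)
  rw [← ss_sq' k q U]
  set s := ss k q U with hsd
  set V := vol n L l with hVd
  have hV0 : 0 ≤ V := le_trans (by norm_num) hV1
  have hl0 : (0 : ℝ) ≤ l := Nat.cast_nonneg _
  have hlp : ∀ p : ℕ, (l : ℝ) ^ p ≤ V ^ p := fun p => pow_le_pow_left₀ hl0 hlV p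
  have hVp : ∀ p : ℕ, 1 ≤ V ^ p := fun p => one_le_pow₀ hV1
  -- the coefficients
  have hcv : ∀ α j x, ‖cv k q U α j x‖ ≤ C5 * V ^ p5 * (N ^ 2 * s) := by
    intro α j x
    by_cases hα : α = (0, 0)
    · unfold cv
      rw [if_pos hα, norm_zero]
      positivity
    · rw [cv_of k q U hα, norm_mul]
      have e1 := (h5 n L l k hk α hα (ps k q α U) (N ^ 2 * s) (C4 * l ^ p4 * s ^ 2)
        (ps_anti k q α U) (ps_le k q α U)
        (fun i j m x hij hjm hmi => h4 n L l k q U α x i j m hij hjm hmi)).1 j x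
      have e2 : ‖(-(1 / N) : ℂ)‖ ≤ 1 := by
        rw [norm_neg, norm_div, norm_one, Complex.norm_natCast]
        rw [div_le_one hN0]
        exact hN
      calc ‖(-(1 / N) : ℂ)‖ * ‖pot k α (ps k q α U) j x‖ ≤ 1 * (C5 * V ^ p5 * (N ^ 2 * s)) :=
            mul_le_mul e2 e1 (norm_nonneg _) zero_le_one
        _ = _ := one_mul _
  have hA := h6 n L l k q U (cv k q U) _ hcv
  rw [← Kf_eq] at hA
  -- the Hodge identity for each colour
  have hB : ∀ α ∈ CN N, |∑ x : Site n L l, ∑ i : Fin 4, ∑ j ∈ Finset.Ioi i,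
        ((nb k α i (cv k q U α j) x - nb k α j (cv k q U α i) x) * ph2 k q α U i j x).re +
      1 / N * ∑ x : Site n L l, ∑ i : Fin 4, ∑ j ∈ Finset.Ioi i, ‖ph2 k q α U i j x‖ ^ 2| ≤
      C5 * V ^ p5 * (C4 * l ^ p4 * s ^ 2 * (N ^ 2 * s)) := by
    intro α hα
    have hα' := Finset.ne_of_mem_erase hα
    rw [T_eq k q U hα', abs_neg, abs_mul]
    have e1 := (h5 n L l k hk α hα' (ps k q α U) (N ^ 2 * s) (C4 * l ^ p4 * s ^ 2)
        (ps_anti k q α U) (ps_le k q α U)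
        (fun i j m x hij hjm hmi => h4 n L l k q U α x i j m hij hjm hmi)).2
    have e2 : |(1 / N : ℝ)| ≤ 1 := by
      rw [abs_of_pos (by positivity), div_le_one hN0]
      exact hN
    calc _ ≤ 1 * (C5 * V ^ p5 * (C4 * l ^ p4 * s ^ 2 * (N ^ 2 * s))) :=
          mul_le_mul e2 ((Complex.abs_re_le_norm _).trans e1) (abs_nonneg _) zero_le_one
      _ = _ := one_mul _
  -- completeness
  have hC : ∀ x : Site n L l, ∀ i j : Fin 4,
      |∑ α ∈ CN N, ‖ph2 k q α U i j x‖ ^ 2 - N * ‖Fc k q U x i j‖ ^ 2| ≤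
        (C3 * l ^ p3 + 2 * N * C3b ^ 2) * s * ‖Fc k q U x i j‖ ^ 2 := by
    intro x i j
    have e1 := h3 n L l k hk q U x (Fc k q U x i j)
    have e2 : ∑ α : Col N, ‖trace ((Dr α U x).1 * Fc k q U x i j)‖ ^ 2 =
        ‖trace (Fc k q U x i j)‖ ^ 2 + ∑ α ∈ CN N, ‖ph2 k q α U i j x‖ ^ 2 := by
      rw [← Finset.add_sum_erase _ _ (Finset.mem_univ ((0, 0) : Col N)), Dr_zero]
      congr 3
      have : (1 : SU N).1 = 1 := rfl
      rw [this, one_mul]
    have e3 : ‖trace (Fc k q U x i j)‖ ≤ C3b * ‖Fc k q U x i j‖ ^ 2 :=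
      h3b _ (zz_pow k q x i j) _
    have e4 := Fc_le k q U x i j
    have e5 : ‖Fc k q U x i j‖ ≤ 2 * N := by
      have e6 := Fc_sq k q U x i j
      have e7 : ‖zz N k q x i j * trace (plaq U x i j).1‖ ≤ N := by
        rw [norm_mul, zz_norm, one_mul]
        unfold trace
        refine (norm_sum_le _ _).trans ?_
        have e8 : ∀ a ∈ (Finset.univ : Finset (Fin N)), ‖(plaq U x i j).1.diag a‖ ≤ (1 : ℝ) := by
          intro a _
          exact entry_norm_bound_of_unitary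
            (mem_specialUnitaryGroup_iff.1 (plaq U x i j).2).1 a a
        refine (Finset.sum_le_sum e8).trans ?_
        simp
      have e8 := (abs_le.1 ((Complex.abs_re_le_norm (zz N k q x i j *
        trace (plaq U x i j).1)).trans e7)).1
      have e9 : ‖Fc k q U x i j‖ ^ 2 ≤ (2 * N) ^ 2 := by nlinarith
      exact (abs_le_of_sq_le_sq' e9 (by positivity)).2
    set F := ‖Fc k q U x i j‖ with hF
    have hF0 : 0 ≤ F := norm_nonneg _
    have e6 : ‖trace (Fc k q U x i j)‖ ^ 2 ≤ 2 * N * C3b ^ 2 * s * F ^ 2 := by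
      calc ‖trace (Fc k q U x i j)‖ ^ 2 ≤ (C3b * F ^ 2) ^ 2 :=
            pow_le_pow_left₀ (norm_nonneg _) e3 2
        _ = C3b ^ 2 * F ^ 2 * (F * F) := by ring
        _ ≤ C3b ^ 2 * F ^ 2 * (2 * N * s) := by
            refine mul_le_mul_of_nonneg_left (mul_le_mul e5 e4 hF0 (by positivity))
              (by positivity)
        _ = _ := by ring
    rw [e2] at e1
    rw [abs_le] at e1 ⊢
    have e7 : 0 ≤ ‖trace (Fc k q U x i j)‖ ^ 2 := by positivity
    constructor <;> nlinarith [e1.1, e1.2]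
  have hD : |∑ α ∈ CN N, ∑ x : Site n L l, ∑ i : Fin 4, ∑ j ∈ Finset.Ioi i,
      ‖ph2 k q α U i j x‖ ^ 2 - N * s ^ 2| ≤ (C3 * l ^ p3 + 2 * N * C3b ^ 2) * s * s ^ 2 := by
    have e1 : ∑ α ∈ CN N, ∑ x : Site n L l, ∑ i : Fin 4, ∑ j ∈ Finset.Ioi i,
        ‖ph2 k q α U i j x‖ ^ 2 =
        ∑ x : Site n L l, ∑ i : Fin 4, ∑ j ∈ Finset.Ioi i, ∑ α ∈ CN N,
          ‖ph2 k q α U i j x‖ ^ 2 := by
      rw [Finset.sum_comm]
      refine Finset.sum_congr rfl fun x _ => ?_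
      rw [Finset.sum_comm]
      refine Finset.sum_congr rfl fun i _ => ?_
      rw [Finset.sum_comm]
    rw [e1, hsd, ss_sq k q U, ← hsd]
    simp only [Finset.mul_sum, ← Finset.sum_sub_distrib]
    refine (Finset.abs_sum_le_sum_abs _ _).trans (Finset.sum_le_sum fun x _ => ?_)
    refine (Finset.abs_sum_le_sum_abs _ _).trans (Finset.sum_le_sum fun i _ => ?_)
    refine (Finset.abs_sum_le_sum_abs _ _).trans (Finset.sum_le_sum fun j _ => ?_)
    exact hC x i j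
  have hE : |∑ α ∈ CN N, (∑ x : Site n L l, ∑ i : Fin 4, ∑ j ∈ Finset.Ioi i,
        ((nb k α i (cv k q U α j) x - nb k α j (cv k q U α i) x) * ph2 k q α U i j x).re +
      1 / N * ∑ x : Site n L l, ∑ i : Fin 4, ∑ j ∈ Finset.Ioi i, ‖ph2 k q α U i j x‖ ^ 2)| ≤
      N ^ 2 * (C5 * V ^ p5 * (C4 * l ^ p4 * s ^ 2 * (N ^ 2 * s))) := by
    refine (Finset.abs_sum_le_sum_abs _ _).trans ((Finset.sum_le_sum hB).trans ?_)
    rw [Finset.sum_const, nsmul_eq_mul]
    exact mul_le_mul_of_nonneg_right card_CN (by positivity)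
  rw [Finset.sum_add_distrib, ← Finset.mul_sum] at hE
  -- conclusion
  set X1 := ∑ α ∈ CN N, ∑ x : Site n L l, ∑ i : Fin 4, ∑ j ∈ Finset.Ioi i,
        ((nb k α i (cv k q U α j) x - nb k α j (cv k q U α i) x) * ph2 k q α U i j x).re with hX1
  set X2 := ∑ α ∈ CN N, ∑ x : Site n L l, ∑ i : Fin 4, ∑ j ∈ Finset.Ioi i,
      ‖ph2 k q α U i j x‖ ^ 2 with hX2
  have hF : |1 / N * X2 - s ^ 2| ≤ (C3 * l ^ p3 + 2 * N * C3b ^ 2) * s * s ^ 2 := by
    have e1 : 1 / N * X2 - s ^ 2 = 1 / N * (X2 - N * s ^ 2) := by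
      field_simp
    rw [e1, abs_mul]
    have e2 : |(1 / N : ℝ)| ≤ 1 := by
      rw [abs_of_pos (by positivity), div_le_one hN0]
      exact hN
    calc _ ≤ 1 * ((C3 * l ^ p3 + 2 * N * C3b ^ 2) * s * s ^ 2) :=
          mul_le_mul e2 hD (abs_nonneg _) zero_le_one
      _ = _ := one_mul _
  have hfin : |dSq k q U (Kf k q U) - s ^ 2| ≤
      C6 * V ^ p6 * (C5 * V ^ p5 * (N ^ 2 * s)) * s ^ 2 +
        N ^ 2 * (C5 * V ^ p5 * (C4 * l ^ p4 * s ^ 2 * (N ^ 2 * s))) +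
          (C3 * l ^ p3 + 2 * N * C3b ^ 2) * s * s ^ 2 := by
    have e1 : dSq k q U (Kf k q U) - s ^ 2 = (dSq k q U (Kf k q U) + X1) - (X1 + 1 / N * X2) +
        (1 / N * X2 - s ^ 2) := by ring
    rw [e1]
    refine (abs_add_le _ _).trans (add_le_add ((abs_sub _ _).trans (add_le_add ?_ hE)) hF)
    exact hA
  refine hfin.trans ?_
  have q1 : V ^ p6 * V ^ p5 ≤ V ^ (p3 + p4 + p5 + p6) := by
    rw [← pow_add]
    exact pow_le_pow_right₀ hV1 (by omega)
  have q2 : V ^ p5 * (l : ℝ) ^ p4 ≤ V ^ (p3 + p4 + p5 + p6) := by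
    calc V ^ p5 * (l : ℝ) ^ p4 ≤ V ^ p5 * V ^ p4 :=
          mul_le_mul_of_nonneg_left (hlp p4) (by positivity)
      _ = V ^ (p5 + p4) := by rw [pow_add]
      _ ≤ _ := pow_le_pow_right₀ hV1 (by omega)
  have q3 : (l : ℝ) ^ p3 ≤ V ^ (p3 + p4 + p5 + p6) :=
    (hlp p3).trans (pow_le_pow_right₀ hV1 (by omega))
  have q4 := hVp (p3 + p4 + p5 + p6)
  set W := V ^ (p3 + p4 + p5 + p6) with hW
  have hs3 : 0 ≤ s ^ 3 := by positivity
  calc C6 * V ^ p6 * (C5 * V ^ p5 * (N ^ 2 * s)) * s ^ 2 +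
        N ^ 2 * (C5 * V ^ p5 * (C4 * l ^ p4 * s ^ 2 * (N ^ 2 * s))) +
          (C3 * l ^ p3 + 2 * N * C3b ^ 2) * s * s ^ 2
      = C6 * (C5 * N ^ 2) * (V ^ p6 * V ^ p5) * s ^ 3 +
        N ^ 2 * (C5 * (C4 * N ^ 2)) * (V ^ p5 * l ^ p4) * s ^ 3 +
          (C3 * l ^ p3 + 2 * N * C3b ^ 2 * 1) * s ^ 3 := by ring
    _ ≤ C6 * (C5 * N ^ 2) * W * s ^ 3 + N ^ 2 * (C5 * (C4 * N ^ 2)) * W * s ^ 3 +
          (C3 * W + 2 * N * C3b ^ 2 * W) * s ^ 3 := by gcongr
    _ = _ := by ring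

/-- **Q7** -/
theorem t_Q7 : S_Q2 → S_Q3 → S_Q3b → S_Q4 → S_Q5a → S_Q5b → S_Q6 → S_Q7 :=
  fun _ h3 h3b h4 _ h5 h6 => t_Q7' h3 h3b h4 h5 h6

end

end Run7.h182.QC
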